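import Pool.Agent.Helper44.BB.Stmts

set_option autoImplicit false

/-! # Module PRO: the primes lie in a residue class -/

namespace Pool.Agent.Helper44.BB

open Finset

theorem st_PRO : ST_PRO := by
  intro X k s A hk hs hsX hA
  have hsR : (0 : ℝ) < s := Nat.cast_pos.2 hs
  have hX : 0 < X := lt_of_lt_of_le hsR hsX
  rcases A.eq_empty_or_nonempty with rfl | ⟨p0, hp0⟩
  · rw [card_empty, Nat.cast_zero]
    positivity
  have hD : ∀ p ∈ A, s ∣ p * D k + k := by
    intro p hp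
    obtain ⟨h1, -, h3, h4⟩ := hA p hp
    rwa [D_prime_mul h1 h3] at h4
  have hcop : Nat.gcd s (D k) = 1 := by
    refine Nat.coprime_of_dvd fun q hq h1 h2 => ?_
    have h3 : q ∣ k := (Nat.dvd_add_right (h2.mul_left p0)).1 (h1.trans (hD p0 hp0))
    have h4 : q ∣ Nat.gcd k (D k) := Nat.dvd_gcd h3 h2
    rw [Nat.Coprime.gcd_eq_one (D_coprime hk)] at h4
    exact hq.one_lt.ne' (Nat.dvd_one.1 h4)
  have hmod : ∀ p ∈ A, ∀ p' ∈ A, p ≡ p' [MOD s] := by
    intro p hp p' hp'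
    have h1 : p * D k + k ≡ p' * D k + k [MOD s] :=
      ((Nat.modEq_zero_iff_dvd).2 (hD p hp)).trans ((Nat.modEq_zero_iff_dvd).2 (hD p' hp')).symm
    have h2 : p * D k ≡ p' * D k [MOD s] := Nat.ModEq.add_right_cancel' k h1
    exact Nat.ModEq.cancel_right_of_coprime hcop h2
  have hcard : A.card ≤ (range (⌊X⌋₊ / s + 1)).card := by
    apply card_le_card_of_injOn (fun p => p / s)
    · intro p hp
      rw [coe_range, Set.mem_Iio, Nat.lt_succ_iff]
      exact Nat.div_le_div_right (Nat.le_floor (hA p hp).2.1)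
    · intro p hp p' hp' he
      have h1 : p % s = p' % s := hmod p hp p' hp'
      have h2 : p / s = p' / s := he
      rw [← Nat.div_add_mod p s, ← Nat.div_add_mod p' s, h1, h2]
  rw [card_range] at hcard
  have h1 : ((⌊X⌋₊ / s : ℕ) : ℝ) ≤ X / s :=
    le_trans Nat.cast_div_le (div_le_div_of_nonneg_right (Nat.floor_le hX.le) hsR.le)
  have h2 : (1 : ℝ) ≤ X / s := (one_le_div hsR).2 hsX
  calc (A.card : ℝ) ≤ ((⌊X⌋₊ / s + 1 : ℕ) : ℝ) := by exact_mod_cast hcard
    _ = ((⌊X⌋₊ / s : ℕ) : ℝ) + 1 := by push_cast; ring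
    _ ≤ X / s + X / s := add_le_add h1 h2
    _ = 2 * X / s := by ring

end Pool.Agent.Helper44.BB
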