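import Pool.Agent.Helper44.BB.Stmts

set_option autoImplicit false

/-! # Module UNI: the divisor is determined by the rest -/

namespace Pool.Agent.Helper44.BB

open Finset

theorem st_UNI : ST_UNI := by
  intro L z Q y β w₁ w₂ hL hQ hz hw1 hw2 hQ1 hQ2 hβ hy h1 h2 h3 h4
  have hL0 : 0 < L := lt_of_lt_of_le one_pos hL
  have hQ0 : 0 < Q := lt_of_lt_of_le one_pos hQ
  have hQsq : 1 ≤ Q ^ 2 := one_le_pow₀ hQ
  have hz0 : 0 < z := lt_trans (by positivity) hz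
  have hL3 : L ^ 2 ≤ L ^ 3 := pow_le_pow_right₀ hL (by norm_num)
  have hz16 : 16 * L ^ 2 ≤ z := by
    have e1 : 32 * L ^ 3 * 1 ≤ 32 * L ^ 3 * Q ^ 2 := by
      apply mul_le_mul_of_nonneg_left hQsq
      positivity
    nlinarith [sq_nonneg L]
  have heps : 8 * L ^ 2 / z ≤ 1 / 2 := by
    rw [div_le_iff₀ hz0]
    linarith
  have hβ4 : 1 ≤ 4 * L * β := by
    have e1 : (y + dl w₁) * β ≤ 2 * L * β := mul_le_mul_of_nonneg_right hy hβ
    linarith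
  have hd : |dl w₁ - dl w₂| * β ≤ 8 * L ^ 2 / z := by
    have e1 : |dl w₁ - dl w₂| * β = |(dl w₁ - dl w₂) * β| := by
      rw [abs_mul, abs_of_nonneg hβ]
    rw [e1, abs_le]
    constructor
    · linarith
    · linarith
  have hd2 : |dl w₁ - dl w₂| ≤ 32 * L ^ 3 / z := by
    have e0 := abs_nonneg (dl w₁ - dl w₂)
    calc |dl w₁ - dl w₂| = |dl w₁ - dl w₂| * 1 := (mul_one _).symm
      _ ≤ |dl w₁ - dl w₂| * (4 * L * β) := mul_le_mul_of_nonneg_left hβ4 e0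
      _ = 4 * L * (|dl w₁ - dl w₂| * β) := by ring
      _ ≤ 4 * L * (8 * L ^ 2 / z) := mul_le_mul_of_nonneg_left hd (by positivity)
      _ = 32 * L ^ 3 / z := by ring
  apply dl_sep hw1 hw2
  have hw1p : (0 : ℝ) < w₁ := Nat.cast_pos.2 hw1.ne_zero.bot_lt
  have hw2p : (0 : ℝ) < w₂ := Nat.cast_pos.2 hw2.ne_zero.bot_lt
  have hww : (w₁ : ℝ) * w₂ ≤ Q ^ 2 := by
    rw [sq]
    exact mul_le_mul hQ1 hQ2 hw2p.le hQ0.le
  calc |dl w₁ - dl w₂| ≤ 32 * L ^ 3 / z := hd2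
    _ < 1 / Q ^ 2 := by
      rw [div_lt_div_iff₀ hz0 (by positivity)]
      linarith
    _ ≤ 1 / ((w₁ : ℝ) * w₂) := one_div_le_one_div_of_le (by positivity) hww

end Pool.Agent.Helper44.BB
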